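import Pool.Agent.Run7.h31.PA.Fin

/-!
# Groups of polynomial automorphisms of the plane and the Farrell-Jones conjecture

`C` is any class of groups with the closure properties `ClosedE C` (subgroups, finite products, free
products, overgroups of finite index, directed colimits, the extension criterion) which contains the
metabelian groups and satisfies `AcylF C`: a finitely generated group that acts on a tree without
inversions, such that for some `k` and `n` the pointwise stabilizers of the paths of length at least
`k` have at most `n` elements, is in `C` if the vertex stabilizers are in `C`. All this is known for
the class of the groups whose wreath products with finite groups satisfy the K- and L-theoretic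
Farrell-Jones conjecture with coefficients (`AcylF` is a theorem of Knopf); this class also contains
the groups `GL_m(ℚ)` (Rüping). If `Γ` is torsion-free and in this class, then `Wh(Γ) = 0`.

Hence every torsion-free group `Γ` of polynomial automorphisms of the plane over the field of all
algebraic numbers has `Wh(Γ) = 0`; the groups need not be finitely generated. By theorems of
Czerniakiewicz and Makar-Limanov the same holds for groups of automorphisms of the free associative
algebra in two variables and of the first Weyl algebra over this field (not formalised here).

Outline of the proof. By the theorem of Jung and van der Kulk, which is extended here from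
algebraically closed fields to all fields of characteristic zero, `Aut_K K[x, y]` is generated by the
affine and the triangular automorphisms, and the degrees of alternating words show that it acts on
the tree of their cosets. The vertex groups are extensions of `GL_2(K)`, respectively of a metabelian
group, by abelian groups, and they are in `C`. The stabilizer of a path of length at least `7` embeds in
the group of roots of unity of `K`: if `t` is in the stabilizer of a path with the middle part
`s e s e' s`, where `s` is the swap and `e`, `e'` are triangular of degrees `d`, `d'`, then the
multipliers `α`, `β` of `t` satisfy `α = β^d`, `β = α^d'`, and `t = 1` if `α = β = 1`. Therefore the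
theorem of Knopf can be applied to every field `K` with finitely many roots of unity; a finitely
generated field of characteristic zero has this property, and every finitely generated group of
polynomial automorphisms is defined over a finitely generated field.
-/

set_option autoImplicit false

namespace Pool.Agent.Results.MP_8f66f0_al.PlaneAutomorphisms

open Pool.Agent.Y110.FJ (ClosedE)
open Pool.Agent.N509.TX (AcylF)

/-- Let `C` be a class of groups as above. (1) If `K` is a field of characteristic zero such that
`GL_2(K)` is in `C`, then the group of all `K`-automorphisms of `K[x, y]` is in `C`. (2) If `C`
contains the groups `GL_m(ℚ)`, then the group of all `K`-automorphisms of `K[x, y]` is in `C` for every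
algebraic extension `K` of `ℚ`. -/
theorem result (C : ∀ (G : Type) [Group G], Prop) (hC : ClosedE C)
    (hM : ∀ (G : Type) [Group G], derivedSeries G 2 = ⊥ → C G) (hA : AcylF C) :
    (∀ (K : Type) [Field K] [CharZero K], C (Matrix.GeneralLinearGroup (Fin 2) K) →
      C (MvPolynomial (Fin 2) K ≃ₐ[K] MvPolynomial (Fin 2) K)) ∧
    ((∀ m : ℕ, C (Matrix.GeneralLinearGroup (Fin m) ℚ)) →
      ∀ (K : Type) [Field K] [Algebra ℚ K] [Algebra.IsAlgebraic ℚ K],
        C (MvPolynomial (Fin 2) K ≃ₐ[K] MvPolynomial (Fin 2) K)) := by
  refine ⟨fun K _ _ h => Run7.h31.PA.general hC hM hA K h, fun hQ K _ _ _ => ?_⟩
  have : CharZero K := algebraRat.charZero K
  exact Run7.h31.PA.general hC hM hA K (Run7.h31.PA.GL_alg hC hQ K)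

end Pool.Agent.Results.MP_8f66f0_al.PlaneAutomorphisms
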